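import Pool.Agent.J6H91.TZ.Stm2

/-!
# The kernel of the Dirichlet type energy
-/

set_option autoImplicit false

namespace Pool.Agent.J6H24.TZ

/-- the sum of the `(k + 1) ^ (-t)` -/
theorem sum_le {t : ℝ} (h0 : 0 < t) (h1 : t < 1) (n : ℕ) :
    ∑ k ∈ Finset.range n, ((k : ℝ) + 1) ^ (-t) ≤ (n : ℝ) ^ (1 - t) / (1 - t) := by
  have ht : 0 < 1 - t := by linarith
  induction n with
  | zero =>
    simp only [Finset.range_zero, Finset.sum_empty]
    positivity
  | succ n ih =>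
    rw [Finset.sum_range_succ]
    have hn : (0 : ℝ) < (n : ℝ) + 1 := by positivity
    have e1 : (n : ℝ) ^ (1 - t) ≤ ((n : ℝ) + 1) ^ (1 - t) - (1 - t) * ((n : ℝ) + 1) ^ (-t) := by
      have e2 : (n : ℝ) = ((n : ℝ) + 1) * (1 + (-(1 / ((n : ℝ) + 1)))) := by
        field_simp
        ring
      have e3 : (0 : ℝ) ≤ 1 + (-(1 / ((n : ℝ) + 1))) := by
        have : 1 / ((n : ℝ) + 1) ≤ 1 := by
          rw [div_le_one hn]
          have := Nat.cast_nonneg (α := ℝ) n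
          linarith
        linarith
      have e4 : (1 + (-(1 / ((n : ℝ) + 1)))) ^ (1 - t) ≤ 1 + (1 - t) * (-(1 / ((n : ℝ) + 1))) :=
        rpow_one_add_le_one_add_mul_self (by linarith) ht.le (by linarith)
      have e5 : ((n : ℝ) + 1) ^ (-t) = ((n : ℝ) + 1) ^ (1 - t) * (1 / ((n : ℝ) + 1)) := by
        rw [show (-t : ℝ) = (1 - t) + (-1) by ring, Real.rpow_add hn, Real.rpow_neg_one, one_div]
      calc (n : ℝ) ^ (1 - t) = (((n : ℝ) + 1) * (1 + (-(1 / ((n : ℝ) + 1))))) ^ (1 - t) := by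
            rw [← e2]
        _ = ((n : ℝ) + 1) ^ (1 - t) * (1 + (-(1 / ((n : ℝ) + 1)))) ^ (1 - t) :=
            Real.mul_rpow hn.le e3
        _ ≤ ((n : ℝ) + 1) ^ (1 - t) * (1 + (1 - t) * (-(1 / ((n : ℝ) + 1)))) :=
            mul_le_mul_of_nonneg_left e4 (Real.rpow_nonneg hn.le _)
        _ = _ := by rw [e5]; ring
    have e6 : (n : ℝ) ^ (1 - t) / (1 - t) + ((n : ℝ) + 1) ^ (-t) ≤
        ((n : ℝ) + 1) ^ (1 - t) / (1 - t) := by
      rw [le_div_iff₀ ht, add_mul, div_mul_cancel₀ _ ht.ne']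
      linarith
    push_cast
    linarith

/-- partial summation -/
theorem tail_le (a : ℕ → ℝ) (ha : ∀ k, a (k + 1) ≤ a k) (ha0 : ∀ k, 0 ≤ a k) {ζ : ℂ}
    (hζ : ‖ζ‖ = 1) (m n : ℕ) :
    ‖(1 - ζ) * ∑ k ∈ Finset.range n, ((a (m + k) : ℝ) : ℂ) * ζ ^ (m + k)‖ ≤ 2 * a m := by
  have key : ∀ n : ℕ, ‖(1 - ζ) * ∑ k ∈ Finset.range n, ((a (m + k) : ℝ) : ℂ) * ζ ^ (m + k) +
      ((a (m + n) : ℝ) : ℂ) * ζ ^ (m + n)‖ ≤ 2 * a m - a (m + n) := by
    intro n
    induction n with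
    | zero =>
      simp only [Finset.range_zero, Finset.sum_empty, mul_zero, zero_add, add_zero, norm_mul,
        norm_pow, hζ, one_pow, mul_one]
      rw [Complex.norm_real, Real.norm_eq_abs, abs_of_nonneg (ha0 m)]
      linarith
    | succ n ih =>
      have e1 : (1 - ζ) * ∑ k ∈ Finset.range (n + 1), ((a (m + k) : ℝ) : ℂ) * ζ ^ (m + k) +
          ((a (m + (n + 1)) : ℝ) : ℂ) * ζ ^ (m + (n + 1)) =
          ((1 - ζ) * ∑ k ∈ Finset.range n, ((a (m + k) : ℝ) : ℂ) * ζ ^ (m + k) +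
            ((a (m + n) : ℝ) : ℂ) * ζ ^ (m + n)) -
          ((a (m + n) - a (m + (n + 1)) : ℝ) : ℂ) * ζ ^ (m + (n + 1)) := by
        rw [Finset.sum_range_succ]
        push_cast
        ring
      rw [e1]
      refine (norm_sub_le _ _).trans ?_
      have e2 : ‖((a (m + n) - a (m + (n + 1)) : ℝ) : ℂ) * ζ ^ (m + (n + 1))‖ =
          a (m + n) - a (m + (n + 1)) := by
        rw [norm_mul, norm_pow, hζ, one_pow, mul_one, Complex.norm_real, Real.norm_eq_abs,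
          abs_of_nonneg]
        have := ha (m + n)
        have e3 : m + n + 1 = m + (n + 1) := by ring
        rw [e3] at this
        linarith
      rw [e2]
      linarith
  have h1 := key n
  have h2 : ‖((a (m + n) : ℝ) : ℂ) * ζ ^ (m + n)‖ = a (m + n) := by
    rw [norm_mul, norm_pow, hζ, one_pow, mul_one, Complex.norm_real, Real.norm_eq_abs,
      abs_of_nonneg (ha0 _)]
  calc ‖(1 - ζ) * ∑ k ∈ Finset.range n, ((a (m + k) : ℝ) : ℂ) * ζ ^ (m + k)‖
      = ‖((1 - ζ) * ∑ k ∈ Finset.range n, ((a (m + k) : ℝ) : ℂ) * ζ ^ (m + k) +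
        ((a (m + n) : ℝ) : ℂ) * ζ ^ (m + n)) - ((a (m + n) : ℝ) : ℂ) * ζ ^ (m + n)‖ := by
        rw [add_sub_cancel_right]
    _ ≤ _ := norm_sub_le _ _
    _ ≤ 2 * a m := by rw [h2]; linarith

/-- **TZ-KER** -/
theorem ker : Pool.Agent.J6H91.TZ.S_KER := by
  intro t ht0 ht1
  refine ⟨4 / (1 - t) + 2, fun K ζ hζ hζ1 => ?_⟩
  have ht : 0 < 1 - t := by linarith
  set r : ℝ := ‖1 - ζ‖ with hr
  have hr0 : 0 < r := norm_pos_iff.2 (sub_ne_zero.2 hζ1.symm)
  have hr2 : r ≤ 2 := by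
    refine (norm_sub_le _ _).trans ?_
    rw [hζ, norm_one]
    norm_num
  have h2r : 1 ≤ 2 / r := by rw [le_div_iff₀ hr0]; linarith
  set a : ℕ → ℝ := fun k => ((k : ℝ) + 1) ^ (-t) with ha
  have hpos : ∀ k : ℕ, (0 : ℝ) < (k : ℝ) + 1 := fun k => by positivity
  have ha0 : ∀ k, 0 ≤ a k := fun k => Real.rpow_nonneg (hpos k).le _
  have ha1 : ∀ k, a (k + 1) ≤ a k := fun k => by
    simp only [ha]
    push_cast
    exact Real.rpow_le_rpow_of_nonpos (hpos k) (by linarith) (by linarith)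
  set m : ℕ := ⌈2 / r⌉₊ with hm
  have hm1 : 2 / r ≤ m := Nat.le_ceil _
  have hm2 : (m : ℝ) ≤ 4 / r := by
    have h3 : (m : ℝ) < 2 / r + 1 := Nat.ceil_lt_add_one (by positivity)
    have h4 : 4 / r = 2 / r + 2 / r := by ring
    linarith
  have hrt : (4 / r) ^ (1 - t) ≤ 4 * r ^ (t - 1) := by
    rw [Real.div_rpow (by norm_num) hr0.le, div_eq_mul_inv, ← Real.rpow_neg hr0.le,
      show -(1 - t) = t - 1 by ring]
    refine mul_le_mul_of_nonneg_right ?_ (Real.rpow_nonneg hr0.le _)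
    calc (4 : ℝ) ^ (1 - t) ≤ 4 ^ (1 : ℝ) :=
          Real.rpow_le_rpow_of_exponent_le (by norm_num) (by linarith)
      _ = 4 := Real.rpow_one 4
  -- the first part
  have first : ∀ n : ℕ, n ≤ m → ‖∑ k ∈ Finset.range n, ((a k : ℝ) : ℂ) * ζ ^ k‖ ≤
      4 / (1 - t) * r ^ (t - 1) := by
    intro n hn
    calc ‖∑ k ∈ Finset.range n, ((a k : ℝ) : ℂ) * ζ ^ k‖
        ≤ ∑ k ∈ Finset.range n, ‖((a k : ℝ) : ℂ) * ζ ^ k‖ := norm_sum_le _ _
      _ = ∑ k ∈ Finset.range n, a k := by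
          refine Finset.sum_congr rfl fun k _ => ?_
          rw [norm_mul, norm_pow, hζ, one_pow, mul_one, Complex.norm_real, Real.norm_eq_abs,
            abs_of_nonneg (ha0 k)]
      _ ≤ (n : ℝ) ^ (1 - t) / (1 - t) := sum_le ht0 ht1 n
      _ ≤ (4 / r) ^ (1 - t) / (1 - t) := by
          refine div_le_div_of_nonneg_right ?_ ht.le
          refine Real.rpow_le_rpow (by positivity) ?_ ht.le
          have : (n : ℝ) ≤ m := by exact_mod_cast hn
          linarith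
      _ ≤ 4 * r ^ (t - 1) / (1 - t) := div_le_div_of_nonneg_right hrt ht.le
      _ = 4 / (1 - t) * r ^ (t - 1) := by ring
  have hC : 0 ≤ r ^ (t - 1) := Real.rpow_nonneg hr0.le _
  rw [add_mul]
  rcases le_total K m with hK | hK
  · exact (first K hK).trans (by linarith)
  · obtain ⟨n, rfl⟩ := Nat.exists_eq_add_of_le hK
    show ‖∑ k ∈ Finset.range (m + n), ((a k : ℝ) : ℂ) * ζ ^ k‖ ≤ _
    rw [Finset.sum_range_add]
    refine (norm_add_le _ _).trans (add_le_add (first m le_rfl) ?_)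
    have h3 := tail_le a ha1 ha0 hζ m n
    rw [norm_mul, ← hr] at h3
    have h4 : a m ≤ r ^ t := by
      simp only [ha]
      calc ((m : ℝ) + 1) ^ (-t) ≤ (1 / r) ^ (-t) := by
            refine Real.rpow_le_rpow_of_nonpos (by positivity) ?_ (by linarith)
            have : 1 / r ≤ 2 / r := div_le_div_of_nonneg_right (by norm_num) hr0.le
            linarith
        _ = r ^ t := by
            rw [one_div, Real.inv_rpow hr0.le, Real.rpow_neg hr0.le, inv_inv]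
    have h5 : r ^ (t - 1) * r = r ^ t := by
      rw [← Real.rpow_add_one hr0.ne']
      congr 1
      ring
    have h6 : r * ‖∑ k ∈ Finset.range n, ((a (m + k) : ℝ) : ℂ) * ζ ^ (m + k)‖ ≤
        r * (2 * r ^ (t - 1)) := by
      calc _ ≤ 2 * a m := h3
        _ ≤ 2 * r ^ t := by linarith
        _ = r * (2 * r ^ (t - 1)) := by rw [← h5]; ring
    exact le_of_mul_le_mul_left h6 hr0

end Pool.Agent.J6H24.TZ
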